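import Pool.Agent.H14R3.KK.Defs
import Pool.Agent.H14R3.KK.S.MUBD
import Pool.Agent.H14R3.KK.S.RHOB

/-! Task MAIN of project KK (MP_d47e08_pr). -/

set_option autoImplicit false
open MeasureTheory ProbabilityTheory Filter Topology

namespace KK14

/-- **Answer to Q1.** -/
theorem MAIN :
    (∀ r : ℕ, Even r → 4 ≤ r → Tendsto (fun l : ℕ => muN r l) atTop (𝓝 0)) ∧
    (∀ l : ℕ, 1 ≤ l → 1 ≤ muN 2 l) ∧
    (∀ q l : ℕ, 1 ≤ q → q ≤ l →
      muN (2 * q) l ≤ ((200 * √((q.factorial : ℝ) * l / (q * l.choose q)) : ℝ) : EReal)) := by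
  refine ⟨?_, MUB, MUBD⟩
  rintro r ⟨q, rfl⟩ h4
  have := TENDA q (by omega)
  rwa [two_mul] at this

end KK14
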