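import Pool.Agent.H14R3.KK.S.LMAXB
import Pool.Agent.H14R3.KK.S.LMAXP
import Pool.Agent.H14R3.KK.S.INTEG
import Pool.Agent.H14R3.KK.S.PAIRS
import Pool.Agent.H14R3.KK.S.DEG
import Pool.Agent.H14R3.KK.S.ESYM
import Pool.Agent.H14R3.KK.S.COUNT
import Pool.Agent.H14R3.KK.S.CLOSEC
import Pool.Agent.H14R3.KK.S.INVO
import Pool.Agent.H14R3.KK.S.INVC
import Pool.Agent.H14R3.KK.S.PATHB
import Pool.Agent.H14R3.KK.S.HEINT
import Pool.Agent.H14R3.KK.S.POLYI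
import Pool.Agent.H14R3.KK.S.WICK
import Pool.Agent.H14R3.KK.S.EUPP
import Pool.Agent.H14R3.KK.S.ASYM
import Pool.Agent.H14R3.KK.S.EUP
import Pool.Agent.H14R3.KK.S.LOWB
import Pool.Agent.H14R3.KK.S.POSB
import Pool.Agent.H14R3.KK.S.RHOA
import Pool.Agent.H14R3.KK.S.MUBD
import Pool.Agent.H14R3.KK.S.SIGNX
import Pool.Agent.H14R3.KK.S.CMART
import Pool.Agent.H14R3.KK.S.CHIA
import Pool.Agent.H14R3.KK.S.CHIB
import Pool.Agent.H14R3.KK.S.ELR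
import Pool.Agent.H14R3.KK.S.ES
import Pool.Agent.H14R3.KK.S.WEAK
import Pool.Agent.H14R3.KK.S.VARB
import Pool.Agent.H14R3.KK.S.FINB
import Pool.Agent.H14R3.KK.S.RHOB
import Pool.Agent.H14R3.KK.S.MAIN
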