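import Pool.Agent.H14R3.KK.Defs

/-! Task POLYI of project KK (MP_d47e08_pr). -/

set_option autoImplicit false
open MeasureTheory ProbabilityTheory Filter Topology

namespace KK14

theorem POLYI {ι : Type*} [Fintype ι] (P : MvPolynomial ι ℝ) :
    Integrable (fun z : ι → ℝ => MvPolynomial.eval z P)
      (Measure.pi fun _ : ι => gaussianReal 0 1) := by
  sorry

/-- Hermite polynomials as polynomials -/
theorem HEPOLY (k : ℕ) : ∃ P : Polynomial ℝ, ∀ x, He k x = P.eval x := by
  sorry

end KK14
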